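import Pool.Agent.H49.LAN.Stmts

set_option autoImplicit false

open scoped BigOperators
open Finset

namespace LAN

namespace MAJ

theorem card_Q (p s : ℕ) [Fact p.Prime] (hs : 1 ≤ s) :
    (univ.filter (fun y : ZMod (p ^ s) => (p : ZMod (p ^ s)) * y = 0)).card = p := by
  have hp : 0 < p := (Fact.out : p.Prime).pos
  have hps : p ^ s = p * p ^ (s - 1) := by
    rw [← pow_succ']
    congr 1
    omega
  have hpos : 0 < p ^ (s - 1) := pow_pos hp _
  have key : (Finset.range p).card =
      (univ.filter (fun y : ZMod (p ^ s) => (p : ZMod (p ^ s)) * y = 0)).card := ?_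
  · rw [Finset.card_range] at key
    exact key.symm
  refine Finset.card_bij (fun l _ => ((p ^ (s - 1) * l : ℕ) : ZMod (p ^ s))) ?_ ?_ ?_
  · intro l _
    simp only [mem_filter, mem_univ, true_and]
    rw [← Nat.cast_mul, ← mul_assoc, ← hps]
    rw [Nat.cast_mul, ZMod.natCast_self, zero_mul]
  · intro a ha b hb h
    rw [mem_range] at ha hb
    have ha' : p ^ (s - 1) * a < p ^ s := by
      rw [hps, mul_comm p]
      exact Nat.mul_lt_mul_of_pos_left ha hpos
    have hb' : p ^ (s - 1) * b < p ^ s := by
      rw [hps, mul_comm p]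
      exact Nat.mul_lt_mul_of_pos_left hb hpos
    have h2 := (ZMod.natCast_eq_natCast_iff' _ _ _).mp h
    rw [Nat.mod_eq_of_lt ha', Nat.mod_eq_of_lt hb'] at h2
    exact Nat.eq_of_mul_eq_mul_left hpos h2
  · intro y hy
    simp only [mem_filter, mem_univ, true_and] at hy
    have h1 : ((p * y.val : ℕ) : ZMod (p ^ s)) = 0 := by
      push_cast
      rw [ZMod.natCast_zmod_val, hy]
    rw [ZMod.natCast_eq_zero_iff] at h1
    have h1' : p * p ^ (s - 1) ∣ p * y.val := (dvd_of_eq hps.symm).trans h1
    have h2 : p ^ (s - 1) ∣ y.val := Nat.dvd_of_mul_dvd_mul_left hp h1'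
    obtain ⟨l, hl⟩ := h2
    refine ⟨l, ?_, ?_⟩
    · rw [mem_range]
      have h3 : p ^ (s - 1) * l < p ^ (s - 1) * p := by
        calc p ^ (s - 1) * l = y.val := hl.symm
          _ < p ^ s := ZMod.val_lt y
          _ = p ^ (s - 1) * p := by rw [hps, mul_comm]
      exact Nat.lt_of_mul_lt_mul_left h3
    · rw [← hl, ZMod.natCast_zmod_val]

end MAJ

theorem maj : MAJStmt := by
  intro p s _ hs α _ c B hB hcount
  classical
  have hp : 0 < p := (Fact.out : p.Prime).pos
  let F : ZMod (p ^ s) → Finset (ZMod (p ^ s)) := fun x =>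
    univ.filter (fun x' => (p : ZMod (p ^ s)) * x' = (p : ZMod (p ^ s)) * x)
  have memF : ∀ x x', x' ∈ F x ↔ (p : ZMod (p ^ s)) * x' = (p : ZMod (p ^ s)) * x := by
    intro x x'
    simp [F]
  have hF : ∀ x, (F x).card = p := by
    intro x
    refine Eq.trans ?_ (MAJ.card_Q p s hs)
    refine Finset.card_bij' (fun x' _ => x' - x) (fun y _ => x + y) ?_ ?_ ?_ ?_
    · intro x' hx'
      rw [memF] at hx'
      simp only [mem_filter, mem_univ, true_and]
      rw [mul_sub, hx', sub_self]
    · intro y hy
      simp only [mem_filter, mem_univ, true_and] at hy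
      rw [memF, mul_add, hy, add_zero]
    · intro x' _; ring
    · intro y _; ring
  let N : ZMod (p ^ s) → ℕ := fun x => ((F x).filter (fun x' => c x' = c x)).card
  have hself : ∀ x, x ∈ F x := fun x => (memF x x).mpr rfl
  have hex : ∀ x : ZMod (p ^ s), ∃ b ∈ F x, ∀ x' ∈ F x, N x' ≤ N b := fun x =>
    Finset.exists_max_image (F x) N ⟨x, hself x⟩
  -- choice depending only on p * x
  let g : ZMod (p ^ s) → ZMod (p ^ s) := fun z =>
    if h : ∃ x : ZMod (p ^ s), (p : ZMod (p ^ s)) * x = z then (hex h.choose).choose else 0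
  let b : ZMod (p ^ s) → ZMod (p ^ s) := fun x => g ((p : ZMod (p ^ s)) * x)
  have hbspec : ∀ x, b x ∈ F x ∧ ∀ x' ∈ F x, N x' ≤ N (b x) := by
    intro x
    have h : ∃ x' : ZMod (p ^ s), (p : ZMod (p ^ s)) * x' = (p : ZMod (p ^ s)) * x := ⟨x, rfl⟩
    have hb : b x = (hex h.choose).choose := by
      show g _ = _
      simp only [g]
      rw [dif_pos h]
    have hFe : F h.choose = F x := by
      ext x'
      rw [memF, memF, h.choose_spec]
    have hsp := (hex h.choose).choose_spec
    rw [hb]
    exact ⟨(Finset.ext_iff.mp hFe _).mp hsp.1,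
      fun x' hx' => hsp.2 x' ((Finset.ext_iff.mp hFe x').mpr hx')⟩
  have hFeq : ∀ x x', x' ∈ F x → F x' = F x := by
    intro x x' h
    ext y
    rw [memF, memF, (memF x x').mp h]
  have hbinv : ∀ x x', x' ∈ F x → b x' = b x := by
    intro x x' h
    show g _ = g _
    rw [(memF x x').mp h]
  refine ⟨b, ?_, ?_⟩
  · intro x y hy
    refine hbinv x (x + y) ?_
    rw [memF, mul_add, hy, add_zero]
  -- number of bad elements
  set bad : Finset (ZMod (p ^ s)) := univ.filter (fun x => c x ≠ c (b x)) with hbad
  let r : ZMod (p ^ s) → ℕ := fun x => ((F x).filter (fun x' => c x' ≠ c (b x))).card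
  have hrN : ∀ x, N (b x) + r x = p := by
    intro x
    have h1 := Finset.card_filter_add_card_filter_not (s := F x) (fun x' => c x' = c (b x))
    rw [hF] at h1
    have h2 : N (b x) = ((F x).filter (fun x' => c x' = c (b x))).card := by
      show ((F (b x)).filter (fun x' => c x' = c (b x))).card = _
      rw [hFeq x (b x) (hbspec x).1]
    rw [h2]
    exact h1
  have hNp : ∀ x, N x ≤ p := by
    intro x
    calc N x ≤ (F x).card := Finset.card_filter_le _ _
      _ = p := hF x
  have hrbad : ∀ x, r x = ((F x).filter (fun x' => x' ∈ bad)).card := by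
    intro x
    show ((F x).filter (fun x' => c x' ≠ c (b x))).card = _
    congr 1
    apply Finset.filter_congr
    intro x' hx'
    rw [hbad]
    simp only [mem_filter, mem_univ, true_and]
    rw [hbinv x x' hx']
  have hrle : ∀ x, r x ≤ bad.card := by
    intro x
    rw [hrbad]
    apply Finset.card_le_card
    intro y hy
    exact (mem_filter.mp hy).2
  have hsumr : ∑ x, r x = p * bad.card := by
    have h1 : ∀ x, r x = ∑ x' ∈ bad, if x' ∈ F x then 1 else 0 := by
      intro x
      rw [hrbad, Finset.sum_boole, Nat.cast_id]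
      congr 1
      ext y
      simp only [mem_filter]
      tauto
    calc ∑ x, r x = ∑ x, ∑ x' ∈ bad, (if x' ∈ F x then 1 else 0) := Finset.sum_congr rfl fun x _ => h1 x
      _ = ∑ x' ∈ bad, ∑ x, (if x' ∈ F x then 1 else 0) := Finset.sum_comm
      _ = ∑ x' ∈ bad, p := by
          refine Finset.sum_congr rfl fun x' _ => ?_
          refine Eq.trans ?_ (hF x')
          rw [Finset.sum_boole, Nat.cast_id]
          congr 1
          ext y
          simp only [mem_filter, mem_univ, true_and, memF]
          exact eq_comm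
      _ = p * bad.card := by rw [Finset.sum_const, smul_eq_mul, mul_comm]
  -- total
  have htot : (∑ x, ((p : ℤ) - N x)) ≤ 2 * B * (p - 1) := by
    have h1 : ∀ x, ((F x).filter (fun x' => ¬ c x' = c x)).card + N x = p := by
      intro x
      have h1 := Finset.card_filter_add_card_filter_not (s := F x) (fun x' => c x' = c x)
      rw [hF] at h1
      show _ + ((F x).filter (fun x' => c x' = c x)).card = p
      omega
    have h2 : (∑ x, ((F x).filter (fun x' => ¬ c x' = c x)).card) =
        ((univ ×ˢ univ : Finset (ZMod (p ^ s) × ZMod (p ^ s))).filter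
          (fun xy => (p : ZMod (p ^ s)) * xy.2 = 0 ∧ c (xy.1 + xy.2) ≠ c xy.1)).card := by
      rw [← Finset.card_sigma]
      refine Finset.card_bij' (fun a _ => (a.1, a.2 - a.1)) (fun a _ => ⟨a.1, a.1 + a.2⟩)
        ?_ ?_ ?_ ?_
      · rintro ⟨x, x'⟩ h
        simp only [mem_sigma, mem_univ, true_and, mem_filter, memF] at h
        simp only [mem_filter, mem_product, mem_univ, true_and]
        refine ⟨?_, ?_⟩
        · rw [mul_sub, h.1, sub_self]
        · rw [add_sub_cancel]
          exact h.2
      · rintro ⟨x, y⟩ h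
        simp only [mem_filter, mem_product, mem_univ, true_and] at h
        simp only [mem_sigma, mem_univ, true_and, mem_filter, memF]
        refine ⟨?_, h.2⟩
        rw [mul_add, h.1, add_zero]
      · rintro ⟨x, x'⟩ _
        simp
      · rintro ⟨x, y⟩ _
        simp
    rw [← h2] at hcount
    have h3 : (∑ x, ((p : ℤ) - N x)) = ((∑ x, ((F x).filter (fun x' => ¬ c x' = c x)).card : ℕ) : ℤ) := by
      push_cast
      refine Finset.sum_congr rfl fun x _ => ?_
      have := h1 x
      have h4 : (((F x).filter (fun x' => ¬ c x' = c x)).card : ℤ) + N x = p := by exact_mod_cast this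
      linarith
    rw [h3]
    calc ((∑ x, ((F x).filter (fun x' => ¬ c x' = c x)).card : ℕ) : ℤ)
        ≤ ((2 * B * (p - 1) : ℕ) : ℤ) := by exact_mod_cast hcount
      _ = 2 * B * (p - 1) := by
          push_cast [Nat.cast_sub hp]
          ring
  -- first estimate
  have e1 : (p : ℤ) * bad.card ≤ 2 * B * (p - 1) := by
    calc (p : ℤ) * bad.card = ∑ x, (r x : ℤ) := by
          rw [← Nat.cast_sum, hsumr]
          push_cast
          ring
      _ ≤ ∑ x, ((p : ℤ) - N x) := by
          refine Finset.sum_le_sum fun x _ => ?_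
          have h1 := hrN x
          have h2 := (hbspec x).2 x (hself x)
          have h3 : (N (b x) : ℤ) + r x = p := by exact_mod_cast h1
          have h4 : (N x : ℤ) ≤ N (b x) := by exact_mod_cast h2
          linarith
      _ ≤ _ := htot
  have hR2 : (bad.card : ℤ) ≤ 2 * B := by
    have hpz : (0 : ℤ) < p := by exact_mod_cast hp
    by_contra hcon
    push Not at hcon
    have : (p : ℤ) * (2 * B + 1) ≤ p * bad.card := mul_le_mul_of_nonneg_left (by linarith) hpz.le
    nlinarith
  have e2 : 2 * ((p : ℤ) - 2 * B) * bad.card ≤ 2 * B * (p - 1) := by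
    refine le_trans ?_ htot
    have hsplit : (∑ x, ((p : ℤ) - N x)) =
        ∑ x ∈ bad, ((p : ℤ) - N x) + ∑ x ∈ univ.filter (fun x => x ∉ bad), ((p : ℤ) - N x) := by
      rw [← Finset.sum_filter_add_sum_filter_not univ (fun x => x ∈ bad)]
      congr 1
      rw [Finset.filter_mem_eq_inter, Finset.univ_inter]
    have hsplit2 : (∑ x, (r x : ℤ)) =
        ∑ x ∈ bad, (r x : ℤ) + ∑ x ∈ univ.filter (fun x => x ∉ bad), (r x : ℤ) := by
      rw [← Finset.sum_filter_add_sum_filter_not univ (fun x => x ∈ bad)]
      congr 1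
      rw [Finset.filter_mem_eq_inter, Finset.univ_inter]
    have hsr : (∑ x, (r x : ℤ)) = p * bad.card := by
      rw [← Nat.cast_sum, hsumr]
      push_cast
      ring
    have hbadr : ∑ x ∈ bad, (r x : ℤ) ≤ 2 * B * bad.card := by
      calc ∑ x ∈ bad, (r x : ℤ) ≤ ∑ x ∈ bad, (2 * B : ℤ) := by
            refine Finset.sum_le_sum fun x _ => ?_
            have : (r x : ℤ) ≤ bad.card := by exact_mod_cast hrle x
            linarith
        _ = _ := by rw [Finset.sum_const, nsmul_eq_mul]; ring
    have hbad2 : ∑ x ∈ bad, ((p : ℤ) - 2 * B) ≤ ∑ x ∈ bad, ((p : ℤ) - N x) := by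
      refine Finset.sum_le_sum fun x hx => ?_
      have hN : N x ≤ r x := by
        show ((F x).filter (fun x' => c x' = c x)).card ≤ ((F x).filter (fun x' => c x' ≠ c (b x))).card
        apply Finset.card_le_card
        intro y hy
        rw [mem_filter] at hy ⊢
        refine ⟨hy.1, ?_⟩
        rw [hy.2]
        exact (mem_filter.mp hx).2
      have h1 : (N x : ℤ) ≤ r x := by exact_mod_cast hN
      have h2 : (r x : ℤ) ≤ bad.card := by exact_mod_cast hrle x
      linarith
    have hgood : ∑ x ∈ univ.filter (fun x => x ∉ bad), (r x : ℤ) ≤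
        ∑ x ∈ univ.filter (fun x => x ∉ bad), ((p : ℤ) - N x) := by
      refine Finset.sum_le_sum fun x _ => ?_
      have h1 := hrN x
      have h2 := (hbspec x).2 x (hself x)
      have h3 : (N (b x) : ℤ) + r x = p := by exact_mod_cast h1
      have h4 : (N x : ℤ) ≤ N (b x) := by exact_mod_cast h2
      linarith
    rw [Finset.sum_const, nsmul_eq_mul] at hbad2
    rw [hsplit]
    nlinarith
  have hfin : (bad.card : ℤ) ≤ B := by
    by_contra hcon
    push Not at hcon
    have hBz : 2 * (B : ℤ) ^ 2 + B < p := by exact_mod_cast hB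
    have hp2 : (0 : ℤ) < (p : ℤ) - 2 * B := by nlinarith [sq_nonneg ((B : ℤ))]
    have h1 : 2 * ((p : ℤ) - 2 * B) * (B + 1) ≤ 2 * ((p : ℤ) - 2 * B) * bad.card :=
      mul_le_mul_of_nonneg_left (by linarith) (by linarith)
    nlinarith
  exact_mod_cast hfin

end LAN
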