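import Pool.Agent.H49.LAN.Stmts

set_option autoImplicit false

open scoped BigOperators
open Finset

namespace LAN

namespace OUT

theorem shift_sum {W : Type} [CommGroup W] (F : W → ℤ) (g : W) (N : ℕ) (hg : g ^ N = 1) (e : ℕ) :
    ∑ d ∈ range N, F (g ^ e * g ^ d) = ∑ d ∈ range N, F (g ^ d) := by
  induction e with
  | zero => simp
  | succ e ih =>
    rw [← ih]
    have h1 : ∀ d, F (g ^ (e + 1) * g ^ d) = F (g ^ e * g ^ (d + 1)) := by
      intro d
      congr 1
      rw [← pow_add, ← pow_add]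
      congr 1
      omega
    simp only [h1]
    have h2 := Finset.sum_range_succ (fun d => F (g ^ e * g ^ d)) N
    have h3 := Finset.sum_range_succ' (fun d => F (g ^ e * g ^ d)) N
    rw [h2] at h3
    have h4 : F (g ^ e * g ^ N) = F (g ^ e * g ^ 0) := by rw [hg, pow_zero]
    rw [h4] at h3
    linarith

theorem sum_Cor {W : Type} [CommGroup W] [Fintype W] (K : W → ℤ) (a : W) :
    ∑ h, Cor K (h * a) = (∑ u, K u) ^ 2 := by
  unfold Cor
  rw [Finset.sum_comm, sq, Finset.sum_mul_sum, Finset.sum_comm]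
  refine (Finset.sum_comm).trans ?_
  refine Finset.sum_congr rfl fun u _ => ?_
  rw [← Finset.sum_mul, ← Finset.mul_sum, mul_comm]
  congr 1
  exact Fintype.sum_equiv ((Equiv.mulRight a).trans (Equiv.mulLeft u)) _ _ (fun h => rfl)

end OUT

theorem out (hK : KCOStmt) : OUTStmt := by
  intro p _ W _ _ _ B K τ g n hp2 hB
  have hp : 0 < p := (Fact.out : p.Prime).pos
  have hkco := hK p W B K τ g 1 n hp2 hB
  simp only [one_pow, one_mul] at hkco
  set S0 := ∑ d ∈ range (p - 1), Cor K (g ^ d) with hS0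
  set r := ((range (p - 1)).filter (fun d => g ^ d = 1)).card with hr
  have hpc : ((p - 1 : ℕ) : ℤ) = (p : ℤ) - 1 := by
    push_cast [Nat.cast_sub hp]
    ring
  have c1 : (∑ u, K u) ^ 2 = n := by
    have h := Finset.sum_congr (s₁ := (univ : Finset W)) rfl (fun h _ => hkco h)
    rw [Finset.sum_sub_distrib, ← Finset.mul_sum, Finset.sum_comm] at h
    have h1 : ∑ h, Cor K h = (∑ u, K u) ^ 2 := by
      have := OUT.sum_Cor K 1
      simpa using this
    rw [h1, Finset.sum_congr rfl (fun d _ => OUT.sum_Cor K (g ^ d)), Finset.sum_const,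
      Finset.card_range, nsmul_eq_mul, hpc, Finset.sum_ite_eq' univ (1 : W), if_pos (mem_univ _)] at h
    linarith
  have c3 : S0 = n * r := by
    have h := Finset.sum_congr (s₁ := range (p - 1)) rfl (fun e _ => hkco (g ^ e))
    rw [Finset.sum_sub_distrib, ← Finset.mul_sum,
      Finset.sum_congr rfl (fun e _ => OUT.shift_sum (Cor K) g (p - 1) hB.gp e),
      Finset.sum_const, Finset.card_range, nsmul_eq_mul, hpc, ← Finset.sum_filter,
      Finset.sum_const, nsmul_eq_mul, ← hS0, ← hr] at h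
    linarith
  have c2 : (p : ℤ) * ∑ u, K u ^ 2 = n * (1 + r) := by
    have h := hkco 1
    rw [if_pos rfl] at h
    simp only [one_mul] at h
    rw [← hS0, c3] at h
    have h1 : Cor K 1 = ∑ u, K u ^ 2 := by
      unfold Cor
      refine Finset.sum_congr rfl fun u _ => ?_
      rw [mul_one, sq]
    rw [h1] at h
    linarith
  have hrel0 : ∀ u, B 1 u = B 0 u + K u := by
    intro u
    have := hB.rel 0 u
    simpa using this
  have hreld : ∀ (u : W) (d : ℕ), ∃ l, B l (u * g ^ d) = B 0 (u * g ^ d) + K u := by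
    intro u d
    have := hB.rel d (u * g ^ d)
    rw [one_pow, one_mul, mul_inv_cancel_right] at this
    exact ⟨_, this⟩
  refine ⟨c1, c2, c3, ?_, ?_, ?_⟩
  · intro u
    have h := hrel0 u
    rcases hB.b01 1 u with h1 | h1 <;> rcases hB.b01 0 u with h2 | h2 <;> omega
  · intro u d hu
    obtain ⟨l, hl⟩ := hreld u d
    rcases hB.b01 l (u * g ^ d) with h1 | h1 <;> rcases hB.b01 0 (u * g ^ d) with h2 | h2 <;> omega
  · intro u d hu
    obtain ⟨l, hl⟩ := hreld u d
    rcases hB.b01 l (u * g ^ d) with h1 | h1 <;> rcases hB.b01 0 (u * g ^ d) with h2 | h2 <;> omega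

end LAN
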